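import Mathlib

set_option autoImplicit false

namespace Pool.Agent.Helper493.Clifford

open Module

/-- A pairwise commuting family of operators on a nonzero finite dimensional complex space has a
common eigenvector. -/
theorem exists_common_eigenvector {V : Type} [AddCommGroup V] [Module ℂ V] [FiniteDimensional ℂ V]
    [Nontrivial V] {ι : Type} (f : ι → Module.End ℂ V) (hcomm : ∀ i j, Commute (f i) (f j)) :
    ∃ v : V, v ≠ 0 ∧ ∀ i, ∃ c : ℂ, f i v = c • v := by
  classical
  let P : Submodule ℂ V → Prop := fun W => W ≠ ⊥ ∧ ∀ i, ∀ v ∈ W, f i v ∈ W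
  have hne : ∃ W, P W := ⟨⊤, by simp, fun i v _ => Submodule.mem_top⟩
  obtain ⟨W, hW, hmin⟩ := (wellFounded_lt (α := Submodule ℂ V)).has_min {W | P W} hne
  obtain ⟨hW0, hWs⟩ := hW
  obtain ⟨v, hvW, hv0⟩ := (Submodule.ne_bot_iff _).1 hW0
  refine ⟨v, hv0, fun i => ?_⟩
  have : Nontrivial W := by
    rw [Submodule.nontrivial_iff_ne_bot]; exact hW0
  obtain ⟨c, hc⟩ := Module.End.exists_eigenvalue ((f i).restrict (hWs i))
  obtain ⟨w, hw⟩ := hc.exists_hasEigenvector
  have hwe := hw.apply_eq_smul
  have hw0 : w ≠ 0 := hw.2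
  let E : Submodule ℂ V := W ⊓ LinearMap.ker (f i - c • LinearMap.id)
  have hEP : P E := by
    refine ⟨?_, ?_⟩
    · rw [Submodule.ne_bot_iff]
      refine ⟨(w : V), ?_, ?_⟩
      · refine ⟨w.2, ?_⟩
        have := congrArg (Subtype.val) hwe
        simp only [LinearMap.restrict_apply, Submodule.coe_smul] at this
        simp [this]
      · intro h
        exact hw0 (Subtype.ext h)
    · intro j u hu
      obtain ⟨huW, huk⟩ := hu
      refine ⟨hWs j u huW, ?_⟩
      have h1 : f i u = c • u := by
        have := huk
        simp only [SetLike.mem_coe, LinearMap.mem_ker, LinearMap.sub_apply, LinearMap.smul_apply,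
          LinearMap.id_apply, sub_eq_zero] at this
        exact this
      have h2 : f i (f j u) = f j (f i u) := by
        have := congrArg (fun g : Module.End ℂ V => g u) (hcomm i j).eq
        simpa using this
      simp only [SetLike.mem_coe, LinearMap.mem_ker, LinearMap.sub_apply, LinearMap.smul_apply,
        LinearMap.id_apply, sub_eq_zero]
      rw [h2, h1, map_smul]
  have hEW : E = W := by
    by_contra hne'
    exact hmin E hEP (lt_of_le_of_ne inf_le_left hne')
  refine ⟨c, ?_⟩
  have hvE : v ∈ E := by rw [hEW]; exact hvW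
  have := hvE.2
  simp only [SetLike.mem_coe, LinearMap.mem_ker, LinearMap.sub_apply, LinearMap.smul_apply,
    LinearMap.id_apply, sub_eq_zero] at this
  exact this

/-- Simultaneous eigenvectors with pairwise different weights are linearly independent. -/
theorem linearIndependent_of_weights {ι X V : Type} [AddCommGroup V] [Module ℂ V]
    (T : X → Module.End ℂ V) (b : ι → V) (w : ι → X → ℂ)
    (hb : ∀ i, b i ≠ 0) (hw : ∀ i x, T x (b i) = w i x • b i) (hinj : Function.Injective w) :
    LinearIndependent ℂ b := by
  classical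
  rw [linearIndependent_iff']
  intro s
  induction s using Finset.induction_on with
  | empty => intro g _ i hi; simp at hi
  | insert a s ha ih =>
    intro g hg
    have key : ∀ j ∈ s, g j = 0 := by
      intro j hj
      have hja : w j ≠ w a := fun h => ha (by rw [← hinj h]; exact hj)
      obtain ⟨x, hx⟩ := Function.ne_iff.1 hja
      have h1 : ∑ i ∈ s, (g i * (w i x - w a x)) • b i = 0 := by
        have h2 : T x (∑ i ∈ insert a s, g i • b i) - w a x • (∑ i ∈ insert a s, g i • b i) = 0 := by
          rw [hg]; simp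
        rw [map_sum, Finset.smul_sum, ← Finset.sum_sub_distrib, Finset.sum_insert ha] at h2
        rw [← h2]
        have h3 : T x (g a • b a) - w a x • g a • b a = 0 := by
          rw [map_smul, hw, smul_comm, sub_self]
        rw [h3, zero_add]
        refine Finset.sum_congr rfl fun i _ => ?_
        rw [map_smul, hw, smul_smul, smul_smul, ← sub_smul]
        ring_nf
      have := ih _ h1 j hj
      rcases mul_eq_zero.1 this with h | h
      · exact h
      · exact absurd (sub_eq_zero.1 h) hx
    intro i hi
    rcases Finset.mem_insert.1 hi with rfl | hi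
    · rw [Finset.sum_insert ha, Finset.sum_eq_zero (fun j hj => by rw [key j hj, zero_smul]),
        add_zero] at hg
      rcases smul_eq_zero.1 hg with h | h
      · exact h
      · exact absurd h (hb i)
    · exact key i hi

variable {G : Type} [Group G]

/-- Clifford theory for a linear character: the dimension of an irreducible representation is
the index of the stabiliser `T`, when `T` acts on a line of weight `μ` of a normal subgroup `A`. -/
theorem finrank_eq_index {V : Type} [AddCommGroup V] [Module ℂ V]
    (ρ : Representation ℂ G V)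
    (hirr : ∀ W : Submodule ℂ V, (∀ g : G, ∀ v ∈ W, ρ g v ∈ W) → W = ⊥ ∨ W = ⊤)
    (A T : Subgroup G) (hAn : A.Normal) (v : V) (hv : v ≠ 0) (μ : G → ℂ)
    (hA : ∀ a ∈ A, ρ a v = μ a • v)
    (hT : ∀ t ∈ T, ∃ c : ℂ, ρ t v = c • v)
    (hsep : ∀ g, g ∉ T → ∃ a ∈ A, μ (g⁻¹ * a * g) ≠ μ a) :
    Module.finrank ℂ V = T.index := by
  classical
  let b : G ⧸ T → V := fun q => ρ q.out v
  have hinj : ∀ g : G, ∀ u : V, ρ g u = 0 → u = 0 := by
    intro g u h
    have : ρ g⁻¹ (ρ g u) = 0 := by rw [h, map_zero]
    rwa [← Module.End.mul_apply, ← map_mul, inv_mul_cancel, map_one, Module.End.one_apply] at this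
  have hb : ∀ q, b q ≠ 0 := fun q h => hv (hinj _ _ h)
  have hli : LinearIndependent ℂ b := by
    refine linearIndependent_of_weights (X := A) (fun a => ρ (a : G)) b
      (fun q a => μ (q.out⁻¹ * a * q.out)) hb ?_ ?_
    · intro q a
      have h1 : q.out⁻¹ * (a : G) * q.out ∈ A := by
        have := hAn.conj_mem (a : G) a.2 q.out⁻¹
        simpa using this
      have h2 : (a : G) * q.out = q.out * (q.out⁻¹ * (a : G) * q.out) := by group
      calc ρ (a : G) (b q) = ρ ((a : G) * q.out) v := by
            rw [map_mul, Module.End.mul_apply]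
        _ = ρ q.out (ρ (q.out⁻¹ * (a : G) * q.out) v) := by
            rw [h2, map_mul, Module.End.mul_apply]
        _ = _ := by rw [hA _ h1, map_smul]
    · intro q q' h
      by_contra hne
      have hnT : q.out⁻¹ * q'.out ∉ T := by
        intro hmem
        apply hne
        have h3 : (QuotientGroup.mk q.out : G ⧸ T) = QuotientGroup.mk q'.out := QuotientGroup.eq.2 hmem
        rwa [QuotientGroup.out_eq', QuotientGroup.out_eq'] at h3
      obtain ⟨a, ha, hne2⟩ := hsep _ hnT
      apply hne2
      have h4 : q.out * a * q.out⁻¹ ∈ A := hAn.conj_mem a ha q.out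
      have h5 := congrFun h ⟨_, h4⟩
      simp only at h5
      have e1 : q.out⁻¹ * (q.out * a * q.out⁻¹) * q.out = a := by group
      have e2 : q'.out⁻¹ * (q.out * a * q.out⁻¹) * q'.out
          = (q.out⁻¹ * q'.out)⁻¹ * a * (q.out⁻¹ * q'.out) := by group
      rw [e1, e2] at h5
      exact h5.symm
  have hspan : Submodule.span ℂ (Set.range b) = ⊤ := by
    refine (hirr _ ?_).resolve_left ?_
    · intro g u hu
      induction hu using Submodule.span_induction with
      | mem x hx =>
        obtain ⟨q, rfl⟩ := hx
        have h6 : ((QuotientGroup.mk (g * q.out) : G ⧸ T)).out⁻¹ * (g * q.out) ∈ T := by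
          rw [← QuotientGroup.eq, QuotientGroup.out_eq']
        obtain ⟨c, hc⟩ := hT _ h6
        have h7 : ρ g (b q) = c • b (QuotientGroup.mk (g * q.out)) := by
          have e3 : g * q.out = ((QuotientGroup.mk (g * q.out) : G ⧸ T)).out *
              (((QuotientGroup.mk (g * q.out) : G ⧸ T)).out⁻¹ * (g * q.out)) := by group
          calc ρ g (b q) = ρ (g * q.out) v := by rw [map_mul, Module.End.mul_apply]
            _ = ρ ((QuotientGroup.mk (g * q.out) : G ⧸ T)).out
                (ρ (((QuotientGroup.mk (g * q.out) : G ⧸ T)).out⁻¹ * (g * q.out)) v) := by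
                rw [← Module.End.mul_apply, ← map_mul, ← e3]
            _ = _ := by rw [hc, map_smul]
        rw [h7]
        exact Submodule.smul_mem _ _ (Submodule.subset_span ⟨_, rfl⟩)
      | zero => rw [map_zero]; exact Submodule.zero_mem _
      | add x y _ _ hx hy => rw [map_add]; exact Submodule.add_mem _ hx hy
      | smul c x _ hx => rw [map_smul]; exact Submodule.smul_mem _ _ hx
    · intro h
      have : b (QuotientGroup.mk 1) ∈ Submodule.span ℂ (Set.range b) :=
        Submodule.subset_span ⟨_, rfl⟩
      rw [h, Submodule.mem_bot] at this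
      exact hb _ this
  have hbas : Module.Basis (G ⧸ T) ℂ V := Module.Basis.mk hli (by rw [hspan])
  rw [Module.finrank_eq_nat_card_basis hbas]
  rfl

/-- Existence of an irreducible representation containing a given linear character `θ` of a
subgroup `T`. -/
theorem exists_irreducible [Finite G] (T : Subgroup G) (θ : G → ℂ) (h1 : θ 1 = 1)
    (hmul : ∀ s ∈ T, ∀ t ∈ T, θ (s * t) = θ s * θ t) :
    ∃ (V : Type) (_ : AddCommGroup V) (_ : Module ℂ V) (_ : FiniteDimensional ℂ V)
      (ρ : Representation ℂ G V), Nontrivial V ∧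
      (∀ W : Submodule ℂ V, (∀ g : G, ∀ v ∈ W, ρ g v ∈ W) → W = ⊥ ∨ W = ⊤) ∧
      ∃ v : V, v ≠ 0 ∧ ∀ t ∈ T, ρ t v = θ t • v := by
  classical
  have := Fintype.ofFinite G
  -- the regular representation on functions
  let R : Representation ℂ G (G → ℂ) :=
    { toFun := fun g =>
        { toFun := fun f x => f (x * g)
          map_add' := fun _ _ => rfl
          map_smul' := fun _ _ => rfl }
      map_one' := by ext f x; simp
      map_mul' := fun g h => by
        ext f x
        simp [mul_assoc] }
  have hR : ∀ g f x, R g f x = f (x * g) := fun _ _ _ => rfl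
  let v0 : G → ℂ := fun x => if x ∈ T then θ x else 0
  have hv0 : v0 ≠ 0 := by
    intro h
    have := congrFun h 1
    simp only [v0, T.one_mem, if_true, h1, Pi.zero_apply] at this
    exact one_ne_zero this
  have hv0T : ∀ t ∈ T, R t v0 = θ t • v0 := by
    intro t ht
    ext x
    rw [hR]
    simp only [v0, Pi.smul_apply, smul_eq_mul]
    by_cases hx : x ∈ T
    · rw [if_pos hx, if_pos (T.mul_mem hx ht), hmul x hx t ht, mul_comm]
    · rw [if_neg hx, if_neg (fun h => hx ((T.mul_mem_cancel_right ht).1 h)), mul_zero]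
  -- a maximal invariant submodule avoiding v0
  let P : Submodule ℂ (G → ℂ) → Prop := fun W => v0 ∉ W ∧ ∀ g, ∀ v ∈ W, R g v ∈ W
  have hne : ∃ W, P W := ⟨⊥, by simpa using hv0, fun g v hv => by
    rw [Submodule.mem_bot] at hv ⊢; rw [hv, map_zero]⟩
  obtain ⟨M, hM, hmax⟩ := (wellFounded_gt (α := Submodule ℂ (G → ℂ))).has_min {W | P W} hne
  obtain ⟨hM0, hMs⟩ := hM
  -- the invariant submodule generated by v0 and M
  let N : Submodule ℂ (G → ℂ) := M ⊔ Submodule.span ℂ (Set.range fun g => R g v0)
  have hNs : ∀ g, ∀ v ∈ N, R g v ∈ N := by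
    intro g v hv
    obtain ⟨m, hm, s, hs, rfl⟩ := Submodule.mem_sup.1 hv
    rw [map_add]
    refine N.add_mem (Submodule.mem_sup_left (hMs g m hm)) (Submodule.mem_sup_right ?_)
    induction hs using Submodule.span_induction with
    | mem x hx =>
      obtain ⟨h, rfl⟩ := hx
      refine Submodule.subset_span ⟨g * h, ?_⟩
      simp only [map_mul, Module.End.mul_apply]
    | zero => rw [map_zero]; exact Submodule.zero_mem _
    | add x y _ _ hx hy =>
      rw [map_add]
      exact Submodule.add_mem _ (hx (N.add_mem (Submodule.mem_sup_left hm) (Submodule.mem_sup_right (by assumption)))) (hy (N.add_mem (Submodule.mem_sup_left hm) (Submodule.mem_sup_right (by assumption))))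
    | smul c x _ hx =>
      rw [map_smul]
      exact Submodule.smul_mem _ _ (hx (N.add_mem (Submodule.mem_sup_left hm) (Submodule.mem_sup_right (by assumption))))
  have hv0N : v0 ∈ N := Submodule.mem_sup_right (Submodule.subset_span ⟨1, by simp⟩)
  have hMN : M ≤ N := le_sup_left
  -- the quotient N / M
  let M' : Submodule ℂ N := M.comap N.subtype
  let RN : Representation ℂ G N :=
    { toFun := fun g => (R g).restrict (hNs g)
      map_one' := by ext v; simp [LinearMap.restrict_apply]
      map_mul' := fun g h => by ext v; simp [LinearMap.restrict_apply] }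
  have hRN : ∀ g (v : N), ((RN g v : N) : G → ℂ) = R g (v : G → ℂ) := fun _ _ => rfl
  have hM's : ∀ g, M' ≤ M'.comap (RN g) := by
    intro g v hv
    exact hMs g _ hv
  let Q : Representation ℂ G (N ⧸ M') :=
    { toFun := fun g => M'.mapQ M' (RN g) (hM's g)
      map_one' := by
        ext v
        simp
      map_mul' := fun g h => by
        ext v
        simp [Submodule.mapQ_apply] }
  have hQ : ∀ g (v : N), Q g (Submodule.Quotient.mk v) = Submodule.Quotient.mk (RN g v) :=
    fun _ _ => rfl
  have hvne : (Submodule.Quotient.mk (⟨v0, hv0N⟩ : N) : N ⧸ M') ≠ 0 := by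
    intro h
    rw [Submodule.Quotient.mk_eq_zero] at h
    exact hM0 h
  refine ⟨N ⧸ M', inferInstance, inferInstance, inferInstance, Q, ⟨_, _, hvne⟩, ?_,
    ⟨Submodule.Quotient.mk ⟨v0, hv0N⟩, hvne, ?_⟩⟩
  · intro W hW
    by_cases hW0 : W = ⊥
    · exact Or.inl hW0
    right
    -- pull back W to a submodule of functions
    let W' : Submodule ℂ (G → ℂ) := (W.comap M'.mkQ).map N.subtype
    have hW's : ∀ g, ∀ v ∈ W', R g v ∈ W' := by
      rintro g _ ⟨u, hu, rfl⟩
      refine ⟨RN g u, ?_, hRN g u⟩
      have : M'.mkQ (RN g u) = Q g (M'.mkQ u) := rfl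
      simp only [SetLike.mem_coe, Submodule.mem_comap] at hu ⊢
      rw [this]
      exact hW g _ hu
    have hMW' : M ≤ W' := by
      intro m hm
      refine ⟨⟨m, hMN hm⟩, ?_, rfl⟩
      simp only [SetLike.mem_coe, Submodule.mem_comap]
      have : M'.mkQ ⟨m, hMN hm⟩ = 0 := by
        rw [Submodule.mkQ_apply, Submodule.Quotient.mk_eq_zero]
        exact hm
      rw [this]; exact W.zero_mem
    have hv0W' : v0 ∈ W' := by
      by_contra hcon
      have hnlt : ¬ M < W' := fun hlt => hmax W' ⟨hcon, hW's⟩ hlt
      have heq : M = W' := by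
        by_contra hne'
        exact hnlt (lt_of_le_of_ne hMW' hne')
      apply hW0
      rw [Submodule.eq_bot_iff]
      intro w hw
      obtain ⟨u, rfl⟩ := Submodule.Quotient.mk_surjective _ w
      rw [Submodule.Quotient.mk_eq_zero]
      change (u : G → ℂ) ∈ M
      rw [heq]
      exact ⟨u, hw, rfl⟩
    have hNW' : N ≤ W' := by
      refine sup_le hMW' (Submodule.span_le.2 ?_)
      rintro _ ⟨g, rfl⟩
      exact hW's g _ hv0W'
    rw [eq_top_iff]
    intro w _
    obtain ⟨u, rfl⟩ := Submodule.Quotient.mk_surjective _ w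
    obtain ⟨u', hu', he⟩ := hNW' u.2
    have : u' = u := Subtype.ext he
    rw [this] at hu'
    exact hu'
  · intro t ht
    rw [hQ, ← Submodule.Quotient.mk_smul]
    congr 1
    apply Subtype.ext
    rw [hRN]
    exact hv0T t ht

end Pool.Agent.Helper493.Clifford
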