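import Mathlib

set_option autoImplicit false

namespace Pool.Agent.Helper493.CubicGroup

/-- Elements `(t; a + bX + cX^2 + dX^3; z)` over a field `K`: a translation parameter `t`, a
polynomial of degree at most three, and a central coordinate `z`. -/
@[ext]
structure CG (K : Type) where
  t : K
  a : K
  b : K
  c : K
  d : K
  z : K

variable {K : Type} [Field K]

/-- The group law: `(t; f; z) (s; g; w) = (t + s; f(X+s) + g; z + w + ω(f(X+s), g))` with the
translation invariant alternating form `ω(f,g) = 3 a d' - b c' + c b' - 3 d a'`. -/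
instance : Mul (CG K) where
  mul x y :=
    { t := x.t + y.t
      a := (x.a + x.b * y.t + x.c * y.t ^ 2 + x.d * y.t ^ 3) + y.a
      b := (x.b + 2 * x.c * y.t + 3 * x.d * y.t ^ 2) + y.b
      c := (x.c + 3 * x.d * y.t) + y.c
      d := x.d + y.d
      z := x.z + y.z + (3 * (x.a + x.b * y.t + x.c * y.t ^ 2 + x.d * y.t ^ 3) * y.d
        - (x.b + 2 * x.c * y.t + 3 * x.d * y.t ^ 2) * y.c
        + (x.c + 3 * x.d * y.t) * y.b - 3 * x.d * y.a) }

instance : One (CG K) where
  one := { t := 0, a := 0, b := 0, c := 0, d := 0, z := 0 }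

instance : Inv (CG K) where
  inv x :=
    { t := -x.t
      a := -(x.a + x.b * (-x.t) + x.c * (-x.t) ^ 2 + x.d * (-x.t) ^ 3)
      b := -(x.b + 2 * x.c * (-x.t) + 3 * x.d * (-x.t) ^ 2)
      c := -(x.c + 3 * x.d * (-x.t))
      d := -x.d
      z := -x.z }

@[simp] theorem mul_t (x y : CG K) : (x * y).t = x.t + y.t := rfl
@[simp] theorem mul_a (x y : CG K) :
    (x * y).a = (x.a + x.b * y.t + x.c * y.t ^ 2 + x.d * y.t ^ 3) + y.a := rfl
@[simp] theorem mul_b (x y : CG K) :
    (x * y).b = (x.b + 2 * x.c * y.t + 3 * x.d * y.t ^ 2) + y.b := rfl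
@[simp] theorem mul_c (x y : CG K) : (x * y).c = (x.c + 3 * x.d * y.t) + y.c := rfl
@[simp] theorem mul_d (x y : CG K) : (x * y).d = x.d + y.d := rfl
@[simp] theorem mul_z (x y : CG K) :
    (x * y).z = x.z + y.z + (3 * (x.a + x.b * y.t + x.c * y.t ^ 2 + x.d * y.t ^ 3) * y.d
        - (x.b + 2 * x.c * y.t + 3 * x.d * y.t ^ 2) * y.c
        + (x.c + 3 * x.d * y.t) * y.b - 3 * x.d * y.a) := rfl
@[simp] theorem one_t : (1 : CG K).t = 0 := rfl
@[simp] theorem one_a : (1 : CG K).a = 0 := rfl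
@[simp] theorem one_b : (1 : CG K).b = 0 := rfl
@[simp] theorem one_c : (1 : CG K).c = 0 := rfl
@[simp] theorem one_d : (1 : CG K).d = 0 := rfl
@[simp] theorem one_z : (1 : CG K).z = 0 := rfl
@[simp] theorem inv_t (x : CG K) : (x⁻¹).t = -x.t := rfl
@[simp] theorem inv_a (x : CG K) :
    (x⁻¹).a = -(x.a + x.b * (-x.t) + x.c * (-x.t) ^ 2 + x.d * (-x.t) ^ 3) := rfl
@[simp] theorem inv_b (x : CG K) :
    (x⁻¹).b = -(x.b + 2 * x.c * (-x.t) + 3 * x.d * (-x.t) ^ 2) := rfl
@[simp] theorem inv_c (x : CG K) : (x⁻¹).c = -(x.c + 3 * x.d * (-x.t)) := rfl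
@[simp] theorem inv_d (x : CG K) : (x⁻¹).d = -x.d := rfl
@[simp] theorem inv_z (x : CG K) : (x⁻¹).z = -x.z := rfl

instance : Group (CG K) where
  mul_assoc x y w := by
    ext <;> simp <;> ring
  one_mul x := by ext <;> simp
  mul_one x := by ext <;> simp
  inv_mul_cancel x := by
    ext <;> simp <;> ring

/-- The coordinates identify the group with `K ^ 6` as a set. -/
def equivProd : CG K ≃ K × K × K × K × K × K where
  toFun x := (x.t, x.a, x.b, x.c, x.d, x.z)
  invFun y := ⟨y.1, y.2.1, y.2.2.1, y.2.2.2.1, y.2.2.2.2.1, y.2.2.2.2.2⟩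
  left_inv _ := rfl
  right_inv _ := rfl

end Pool.Agent.Helper493.CubicGroup
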