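import Mathlib
import Pool.Agent.Helper493.Clifford
import Pool.Agent.Helper493.CubicGroup

set_option autoImplicit false

namespace Pool.Agent.Helper493.CubicGroup

open Module Pool.Agent.Helper493.Clifford

variable {K : Type} [Field K]

/-- The subgroup `t = 0`. -/
def N : Subgroup (CG K) where
  carrier := {x | x.t = 0}
  mul_mem' := by
    intro x y hx hy
    simp only [Set.mem_ofPred_eq] at *
    simp [hx, hy]
  one_mem' := rfl
  inv_mem' := by
    intro x hx
    simp only [Set.mem_ofPred_eq] at *
    simp [hx]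

/-- The subgroup `t = d = 0`. -/
def D2 : Subgroup (CG K) where
  carrier := {x | x.t = 0 ∧ x.d = 0}
  mul_mem' := by
    rintro x y ⟨hx, hx'⟩ ⟨hy, hy'⟩
    constructor <;> simp [*]
  one_mem' := ⟨rfl, rfl⟩
  inv_mem' := by
    rintro x ⟨hx, hx'⟩
    constructor <;> simp [*]

/-- The subgroup `t = c = d = 0`. -/
def A : Subgroup (CG K) where
  carrier := {x | x.t = 0 ∧ x.c = 0 ∧ x.d = 0}
  mul_mem' := by
    rintro x y ⟨hx, hx', hx''⟩ ⟨hy, hy', hy''⟩
    refine ⟨?_, ?_, ?_⟩ <;> simp [*]
  one_mem' := ⟨rfl, rfl, rfl⟩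
  inv_mem' := by
    rintro x ⟨hx, hx', hx''⟩
    refine ⟨?_, ?_, ?_⟩ <;> simp [*]

/-- The subgroup `c = d = 0`. -/
def T : Subgroup (CG K) where
  carrier := {x | x.c = 0 ∧ x.d = 0}
  mul_mem' := by
    rintro x y ⟨hx, hx'⟩ ⟨hy, hy'⟩
    constructor <;> simp [*]
  one_mem' := ⟨rfl, rfl⟩
  inv_mem' := by
    rintro x ⟨hx, hx'⟩
    constructor <;> simp [*]

theorem mem_N {x : CG K} : x ∈ (N : Subgroup (CG K)) ↔ x.t = 0 := Iff.rfl
theorem mem_D2 {x : CG K} : x ∈ (D2 : Subgroup (CG K)) ↔ x.t = 0 ∧ x.d = 0 := Iff.rfl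
theorem mem_A {x : CG K} : x ∈ (A : Subgroup (CG K)) ↔ x.t = 0 ∧ x.c = 0 ∧ x.d = 0 := Iff.rfl
theorem mem_T {x : CG K} : x ∈ (T : Subgroup (CG K)) ↔ x.c = 0 ∧ x.d = 0 := Iff.rfl

theorem N_normal : (N : Subgroup (CG K)).Normal where
  conj_mem x hx g := by
    rw [mem_N] at *
    simp [hx]

theorem D2_normal : (D2 : Subgroup (CG K)).Normal where
  conj_mem x hx g := by
    rw [mem_D2] at *
    simp [hx.1, hx.2]

theorem A_normal : (A : Subgroup (CG K)).Normal where
  conj_mem x hx g := by
    rw [mem_A] at *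
    obtain ⟨h1, h2, h3⟩ := hx
    refine ⟨?_, ?_, ?_⟩
    · simp [h1]
    · simp [h1, h2, h3]
    · simp [h3]

theorem nat_card_CG [Finite K] : Nat.card (CG K) = Nat.card K ^ 6 := by
  rw [Nat.card_congr (equivProd (K := K))]
  simp only [Nat.card_prod]
  ring

instance [Finite K] : Finite (CG K) := Finite.of_equiv _ (equivProd (K := K)).symm

theorem index_N [Finite K] : (N : Subgroup (CG K)).index = Nat.card K := by
  have h1 : Nat.card (N : Subgroup (CG K)) = Nat.card K ^ 5 := by
    have e : (N : Subgroup (CG K)) ≃ K × K × K × K × K :=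
      { toFun := fun x => (x.1.a, x.1.b, x.1.c, x.1.d, x.1.z)
        invFun := fun y => ⟨⟨0, y.1, y.2.1, y.2.2.1, y.2.2.2.1, y.2.2.2.2⟩, rfl⟩
        left_inv := by
          rintro ⟨x, hx⟩
          rw [mem_N] at hx
          apply Subtype.ext
          ext <;> simp [hx]
        right_inv := fun _ => rfl }
    rw [Nat.card_congr e]
    simp only [Nat.card_prod]
    ring
  have h2 := Subgroup.card_mul_index (N : Subgroup (CG K))
  rw [h1, nat_card_CG] at h2
  have h3 : 0 < Nat.card K ^ 5 := pow_pos Nat.card_pos 5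
  have h4 : Nat.card K ^ 6 = Nat.card K ^ 5 * Nat.card K := by ring
  rw [h4] at h2
  exact Nat.eq_of_mul_eq_mul_left h3 h2

theorem index_T [Finite K] : (T : Subgroup (CG K)).index = Nat.card K ^ 2 := by
  have h1 : Nat.card (T : Subgroup (CG K)) = Nat.card K ^ 4 := by
    have e : (T : Subgroup (CG K)) ≃ K × K × K × K :=
      { toFun := fun x => (x.1.t, x.1.a, x.1.b, x.1.z)
        invFun := fun y => ⟨⟨y.1, y.2.1, y.2.2.1, 0, 0, y.2.2.2⟩, rfl, rfl⟩
        left_inv := by
          rintro ⟨x, hx⟩
          rw [mem_T] at hx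
          apply Subtype.ext
          ext <;> simp [hx.1, hx.2]
        right_inv := fun _ => rfl }
    rw [Nat.card_congr e]
    simp only [Nat.card_prod]
    ring
  have h2 := Subgroup.card_mul_index (T : Subgroup (CG K))
  rw [h1, nat_card_CG] at h2
  have h3 : 0 < Nat.card K ^ 4 := pow_pos Nat.card_pos 4
  have h4 : Nat.card K ^ 6 = Nat.card K ^ 4 * Nat.card K ^ 2 := by ring
  rw [h4] at h2
  exact Nat.eq_of_mul_eq_mul_left h3 h2

/-- The central element with last coordinate `s`. -/
def zc (s : K) : CG K := ⟨0, 0, 0, 0, 0, s⟩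

theorem zc_comm (s : K) (g : CG K) : zc s * g = g * zc s := by
  ext <;> simp [zc]; ring

theorem zc_add (s t : K) : zc (s + t) = zc s * zc t := by
  ext <;> simp [zc]

theorem zc_zero : zc (0 : K) = 1 := by
  ext <;> simp [zc]

variable {V : Type} [AddCommGroup V] [Module ℂ V] [FiniteDimensional ℂ V] [Nontrivial V]

/-- Representations which are trivial on the centre. -/
theorem finrank_of_trivial [Finite K] (h2 : (2 : K) ≠ 0) (h3 : (3 : K) ≠ 0)
    (ρ : Representation ℂ (CG K) V)
    (hirr : ∀ W : Submodule ℂ V, (∀ g : CG K, ∀ v ∈ W, ρ g v ∈ W) → W = ⊥ ∨ W = ⊤)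
    (hz : ∀ s, ρ (zc s) = 1) : finrank ℂ V = 1 ∨ finrank ℂ V = Nat.card K := by
  classical
  have hcomm : ∀ n m : (N : Subgroup (CG K)), Commute (ρ (n : CG K)) (ρ (m : CG K)) := by
    rintro ⟨n, hn⟩ ⟨m, hm⟩
    rw [mem_N] at hn hm
    have h : n * m = m * n * zc ((n * m).z - (m * n).z) := by
      ext <;> simp [zc, hn, hm] <;> ring
    have h' := congrArg ρ h
    rw [map_mul, map_mul, hz, mul_one, map_mul] at h'
    exact h'
  obtain ⟨v, hv, hv'⟩ := exists_common_eigenvector
    (fun n : (N : Subgroup (CG K)) => ρ (n : CG K)) hcomm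
  by_cases hD : ∀ x ∈ (D2 : Subgroup (CG K)), ρ x v = v
  · -- everything commutes
    left
    let V1 : Submodule ℂ V :=
      { carrier := {u | ∀ x ∈ (D2 : Subgroup (CG K)), ρ x u = u}
        add_mem' := by
          intro u w hu hw x hx
          rw [map_add, hu x hx, hw x hx]
        zero_mem' := by
          intro x _
          rw [map_zero]
        smul_mem' := by
          intro c u hu x hx
          rw [map_smul, hu x hx] }
    have hV1 : V1 = ⊤ := by
      refine (hirr V1 ?_).resolve_left ?_
      · intro g u hu x hx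
        have hx' : g⁻¹ * x * g ∈ (D2 : Subgroup (CG K)) := by
          simpa using (D2_normal (K := K)).conj_mem x hx g⁻¹
        have e : x * g = g * (g⁻¹ * x * g) := by group
        rw [← Module.End.mul_apply, ← map_mul, e, map_mul, Module.End.mul_apply, hu _ hx']
      · intro h
        have : v ∈ V1 := hD
        rw [h, Submodule.mem_bot] at this
        exact hv this
    have hD1 : ∀ x ∈ (D2 : Subgroup (CG K)), ρ x = 1 := by
      intro x hx
      ext u
      have : u ∈ V1 := by rw [hV1]; exact Submodule.mem_top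
      exact this x hx
    have hcomm2 : ∀ g h : CG K, Commute (ρ g) (ρ h) := by
      intro g h
      have e : g * h = h * g * ((h * g)⁻¹ * (g * h)) := by group
      have hmem : (h * g)⁻¹ * (g * h) ∈ (D2 : Subgroup (CG K)) := by
        rw [mem_D2]
        constructor
        · simp; ring
        · simp; ring
      have h' := congrArg ρ e
      rw [map_mul, map_mul, hD1 _ hmem, mul_one, map_mul] at h'
      exact h'
    obtain ⟨u, hu, hu'⟩ := exists_common_eigenvector (fun g : CG K => ρ g) hcomm2
    have := finrank_eq_index ρ hirr (⊥ : Subgroup (CG K)) (⊤ : Subgroup (CG K)) inferInstance u hu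
      (fun _ => 1) (fun a ha => by
        rw [Subgroup.mem_bot] at ha
        rw [ha, map_one, one_smul, Module.End.one_apply]) (fun t _ => hu' t)
      (fun g hg => absurd (Subgroup.mem_top g) hg)
    rw [this, Subgroup.index_top]
  · right
    push Not at hD
    obtain ⟨x, hx, hxv⟩ := hD
    choose c hc using hv'
    let μ : CG K → ℂ := fun g => if h : g ∈ (N : Subgroup (CG K)) then c ⟨g, h⟩ else 0
    have hμ : ∀ n ∈ (N : Subgroup (CG K)), ρ n v = μ n • v := by
      intro n hn
      simp only [μ, dif_pos hn]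
      exact hc ⟨n, hn⟩
    have := finrank_eq_index ρ hirr (N : Subgroup (CG K)) (N : Subgroup (CG K)) N_normal v hv
      μ hμ (fun t ht => ⟨_, hμ t ht⟩) ?_
    · rw [this, index_N]
    · intro g hg
      by_contra hcon
      push Not at hcon
      apply hxv
      rw [mem_N] at hg
      rw [mem_D2] at hx
      obtain ⟨hxt, hxd⟩ := hx
      -- solve f(X + t) - f(X) = x
      let γ := x.c / (3 * g.t)
      let β := (x.b - 3 * γ * g.t ^ 2) / (2 * g.t)
      let α := (x.a - β * g.t ^ 2 - γ * g.t ^ 3) / g.t
      let n : CG K := ⟨0, 0, α, β, γ, 0⟩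
      have hγ : 3 * γ * g.t = x.c := by
        simp only [γ]; field_simp
      have hβ : 2 * β * g.t + 3 * γ * g.t ^ 2 = x.b := by
        have : β * (2 * g.t) = x.b - 3 * γ * g.t ^ 2 := by
          simp only [β]; field_simp
        linear_combination this
      have hα : α * g.t + β * g.t ^ 2 + γ * g.t ^ 3 = x.a := by
        have : α * g.t = x.a - β * g.t ^ 2 - γ * g.t ^ 3 := by
          simp only [α]; field_simp
        linear_combination this
      have hn : n ∈ (N : Subgroup (CG K)) := rfl
      have hxN : x ∈ (N : Subgroup (CG K)) := hxt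
      obtain ⟨s, key⟩ : ∃ s, n * g = g * (n * x * zc s) := by
        refine ⟨(n * g).z - (g * (n * x)).z, ?_⟩
        ext
        · simp [zc, n, hxt]
        · simp [zc, n, hxt]
          linear_combination hα
        · simp [zc, n, hxt]
          linear_combination hβ
        · simp [zc, n, hxt]
          linear_combination hγ
        · simp [zc, n, hxt, hxd]
          ring
        · simp [zc, n, hxt, hxd]
          ring
      have key2 : g⁻¹ * n * g = n * x * zc s := by
        rw [mul_assoc, key, inv_mul_cancel_left]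
      have h5 := hcon n hn
      have h6 : ρ (g⁻¹ * n * g) v = μ (g⁻¹ * n * g) • v := by
        refine hμ _ ?_
        simpa using (N_normal (K := K)).conj_mem n hn g⁻¹
      rw [h5, key2, map_mul, map_mul, hz, mul_one, Module.End.mul_apply, hμ x hxN, map_smul,
        hμ n hn, smul_smul] at h6
      have h7 : μ n ≠ 0 := by
        intro h0
        have h8 := hμ n hn
        rw [h0, zero_smul] at h8
        have : ρ n⁻¹ (ρ n v) = 0 := by rw [h8, map_zero]
        rw [← Module.End.mul_apply, ← map_mul, inv_mul_cancel, map_one,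
          Module.End.one_apply] at this
        exact hv this
      have h9 : μ x * μ n = μ n := by
        have : (μ x * μ n - μ n) • v = 0 := by rw [sub_smul, h6, sub_self]
        rcases smul_eq_zero.1 this with h | h
        · exact sub_eq_zero.1 h
        · exact absurd h hv
      have h10 : μ x = 1 := by
        have : (μ x - 1) * μ n = 0 := by rw [sub_mul, h9, one_mul, sub_self]
        rcases mul_eq_zero.1 this with h | h
        · exact sub_eq_zero.1 h
        · exact absurd h h7
      rw [hμ x hxN, h10, one_smul]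

end Pool.Agent.Helper493.CubicGroup
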