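import Mathlib
import Pool.Agent.Helper493.Clifford
import Pool.Agent.Helper493.CubicGroup
import Pool.Agent.Helper493.CubicDims

set_option autoImplicit false

namespace Pool.Agent.Helper493.CubicGroup

open Module Pool.Agent.Helper493.Clifford
open scoped commutatorElement

variable {K : Type} [Field K]

theorem exists_mulShift [Finite K] (lam : AddChar K ℂ) (hlam : lam ≠ 1) (χ : AddChar K ℂ) :
    ∃ r : K, ∀ x, χ x = lam (r * x) := by
  classical
  have := Fintype.ofFinite K
  have hinj := AddChar.to_mulShift_inj_of_isPrimitive (AddChar.IsPrimitive.of_ne_one hlam)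
  have hsurj : Function.Surjective lam.mulShift := by
    refine ((Fintype.bijective_iff_injective_and_card _).2 ⟨hinj, ?_⟩).2
    rw [AddChar.card_eq]
  obtain ⟨r, hr⟩ := hsurj χ
  exact ⟨r, fun x => by rw [← hr, AddChar.mulShift_apply]⟩

theorem exists_addChar_ne_one [Finite K] : ∃ lam : AddChar K ℂ, lam ≠ 1 := by
  classical
  have := Fintype.ofFinite K
  have h : 1 < Fintype.card (AddChar K ℂ) := by
    rw [AddChar.card_eq]; exact Fintype.one_lt_card
  have := Fintype.one_lt_card_iff_nontrivial.1 h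
  exact exists_ne 1

/-- The element `(0; a + bX; 0)`. -/
def el (a b : K) : CG K := ⟨0, a, b, 0, 0, 0⟩

/-- The translation by `t`. -/
def tr (t : K) : CG K := ⟨t, 0, 0, 0, 0, 0⟩

theorem el_add (a b a' b' : K) : el (a + a') (b + b') = el a b * el a' b' := by
  ext <;> simp [el]

theorem tr_add (s t : K) : tr (s + t) = tr s * tr t := by
  ext <;> simp [tr]

/-- `g⁻¹ a g` for `a` in `A` has central coordinate shifted by an explicit amount. -/
theorem conj_A (g x : CG K) (hx : x ∈ (A : Subgroup (CG K))) :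
    (g⁻¹ * x * g).z = x.z + (6 * (x.a + x.b * g.t) * g.d - 2 * x.b * g.c) := by
  rw [mem_A] at hx
  obtain ⟨h1, h2, h3⟩ := hx
  simp [h1, h2, h3]
  ring

theorem weight_sep (h2 : (2 : K) ≠ 0) (h3 : (3 : K) ≠ 0) (lam : AddChar K ℂ) (hlam : lam ≠ 1)
    (g : CG K) (hg : g ∉ (T : Subgroup (CG K))) :
    ∃ x ∈ (A : Subgroup (CG K)), lam (g⁻¹ * x * g).z ≠ lam x.z := by
  obtain ⟨s, hs⟩ := AddChar.ne_one_iff.1 hlam
  rw [mem_T, not_and_or] at hg
  have h6 : (6 : K) ≠ 0 := by
    have : (6 : K) = 2 * 3 := by norm_num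
    rw [this]; exact mul_ne_zero h2 h3
  by_cases hd : g.d = 0
  · have hc : g.c ≠ 0 := by
      rcases hg with h | h
      · exact h
      · exact absurd hd h
    refine ⟨⟨0, 0, -s / (2 * g.c), 0, 0, 0⟩, ⟨rfl, rfl, rfl⟩, ?_⟩
    rw [conj_A _ _ ⟨rfl, rfl, rfl⟩]
    have : (6 * ((0 : K) + -s / (2 * g.c) * g.t) * g.d - 2 * (-s / (2 * g.c)) * g.c) = s := by
      rw [hd]; field_simp; ring
    simp only [this]
    rw [zero_add, AddChar.map_zero_eq_one]
    exact hs
  · refine ⟨⟨0, s / (6 * g.d), 0, 0, 0, 0⟩, ⟨rfl, rfl, rfl⟩, ?_⟩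
    rw [conj_A _ _ ⟨rfl, rfl, rfl⟩]
    have : (6 * (s / (6 * g.d) + 0 * g.t) * g.d - 2 * 0 * g.c) = s := by
      field_simp; ring
    simp only [this]
    rw [zero_add, AddChar.map_zero_eq_one]
    exact hs

variable {V : Type} [AddCommGroup V] [Module ℂ V] [FiniteDimensional ℂ V] [Nontrivial V]

/-- Representations which are nontrivial on the centre. -/
theorem finrank_of_nontrivial [Finite K] (h2 : (2 : K) ≠ 0) (h3 : (3 : K) ≠ 0)
    (ρ : Representation ℂ (CG K) V)
    (hirr : ∀ W : Submodule ℂ V, (∀ g : CG K, ∀ v ∈ W, ρ g v ∈ W) → W = ⊥ ∨ W = ⊤)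
    (hz : ¬ ∀ s, ρ (zc s) = 1) : finrank ℂ V = Nat.card K ^ 2 := by
  classical
  have hρinj : ∀ g : CG K, ∀ u : V, ρ g u = 0 → u = 0 := by
    intro g u h
    have : ρ g⁻¹ (ρ g u) = 0 := by rw [h, map_zero]
    rwa [← Module.End.mul_apply, ← map_mul, inv_mul_cancel, map_one, Module.End.one_apply] at this
  -- a common eigenvector of A
  have hcomm : ∀ n m : (A : Subgroup (CG K)), Commute (ρ (n : CG K)) (ρ (m : CG K)) := by
    rintro ⟨n, hn⟩ ⟨m, hm⟩
    rw [mem_A] at hn hm
    obtain ⟨hn1, hn2, hn3⟩ := hn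
    obtain ⟨hm1, hm2, hm3⟩ := hm
    have h : n * m = m * n := by
      ext <;> simp [*] <;> ring
    have h' := congrArg ρ h
    rw [map_mul, map_mul] at h'
    exact h'
  obtain ⟨v, hv, hv'⟩ := exists_common_eigenvector
    (fun n : (A : Subgroup (CG K)) => ρ (n : CG K)) hcomm
  choose c hc using hv'
  -- uniqueness of weights
  have huniq : ∀ x y : ℂ, x • v = y • v → x = y := by
    intro x y h
    have : (x - y) • v = 0 := by rw [sub_smul, h, sub_self]
    rcases smul_eq_zero.1 this with h | h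
    · exact sub_eq_zero.1 h
    · exact absurd h hv
  have hcmul : ∀ x y : (A : Subgroup (CG K)), c (x * y) = c x * c y := by
    intro x y
    apply huniq
    rw [← hc (x * y), Subgroup.coe_mul, map_mul, Module.End.mul_apply, hc y, map_smul, hc x,
      smul_smul, mul_comm]
  have hc1 : c 1 = 1 := by
    apply huniq
    rw [← hc 1, Subgroup.coe_one, map_one, Module.End.one_apply, one_smul]
  -- the central character
  have hzcA : ∀ s : K, zc s ∈ (A : Subgroup (CG K)) := fun s => ⟨rfl, rfl, rfl⟩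
  let lam : AddChar K ℂ :=
    { toFun := fun s => c ⟨zc s, hzcA s⟩
      map_zero_eq_one' := by
        have : (⟨zc 0, hzcA 0⟩ : (A : Subgroup (CG K))) = 1 := Subtype.ext zc_zero
        rw [this, hc1]
      map_add_eq_mul' := fun s t => by
        rw [← hcmul]
        congr 1
        exact Subtype.ext (zc_add s t) }
  have hlamv : ∀ s, ρ (zc s) v = lam s • v := fun s => hc ⟨zc s, hzcA s⟩
  have hlam_all : ∀ s, ∀ u : V, ρ (zc s) u = lam s • u := by
    let V1 : Submodule ℂ V :=
      { carrier := {u | ∀ s, ρ (zc s) u = lam s • u}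
        add_mem' := by
          intro u w hu hw x
          rw [map_add, hu x, hw x, smul_add]
        zero_mem' := by
          intro x
          rw [map_zero, smul_zero]
        smul_mem' := by
          intro c u hu x
          rw [map_smul, hu x, smul_comm] }
    have hV1 : V1 = ⊤ := by
      refine (hirr V1 ?_).resolve_left ?_
      · intro g u hu s
        rw [← Module.End.mul_apply, ← map_mul, zc_comm, map_mul, Module.End.mul_apply, hu s,
          map_smul]
      · intro h
        have : v ∈ V1 := hlamv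
        rw [h, Submodule.mem_bot] at this
        exact hv this
    intro s u
    have : u ∈ V1 := by rw [hV1]; exact Submodule.mem_top
    exact this s
  have hlam : lam ≠ 1 := by
    intro h
    apply hz
    intro s
    ext u
    rw [hlam_all, h, AddChar.one_apply, one_smul, Module.End.one_apply]
  -- the characters on the two coordinates of A
  have helA : ∀ a b : K, el a b ∈ (A : Subgroup (CG K)) := fun a b => ⟨rfl, rfl, rfl⟩
  let χ1 : AddChar K ℂ :=
    { toFun := fun s => c ⟨el s 0, helA s 0⟩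
      map_zero_eq_one' := by
        have : (⟨el 0 0, helA 0 0⟩ : (A : Subgroup (CG K))) = 1 := Subtype.ext rfl
        rw [this, hc1]
      map_add_eq_mul' := fun s t => by
        rw [← hcmul]
        congr 1
        refine Subtype.ext ?_
        have := el_add s 0 t 0
        rwa [add_zero] at this }
  let χ2 : AddChar K ℂ :=
    { toFun := fun s => c ⟨el 0 s, helA 0 s⟩
      map_zero_eq_one' := by
        have : (⟨el 0 0, helA 0 0⟩ : (A : Subgroup (CG K))) = 1 := Subtype.ext rfl
        rw [this, hc1]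
      map_add_eq_mul' := fun s t => by
        rw [← hcmul]
        congr 1
        refine Subtype.ext ?_
        have := el_add 0 s 0 t
        rwa [add_zero] at this }
  obtain ⟨α, hα⟩ := exists_mulShift lam hlam χ1
  obtain ⟨β, hβ⟩ := exists_mulShift lam hlam χ2
  have hel : ∀ a b : K, ρ (el a b) v = lam (α * a + β * b) • v := by
    intro a b
    have h1 : (⟨el a b, helA a b⟩ : (A : Subgroup (CG K)))
        = ⟨el a 0, helA a 0⟩ * ⟨el 0 b, helA 0 b⟩ := by
      refine Subtype.ext ?_
      have := el_add a 0 0 b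
      rwa [add_zero, zero_add] at this
    have h3 : c ⟨el a b, helA a b⟩ = lam (α * a + β * b) := by
      rw [h1, hcmul, AddChar.map_add_eq_mul, ← hα, ← hβ]
      rfl
    rw [← h3]
    exact hc ⟨el a b, helA a b⟩
  -- move v to a vector fixed by all `el a b`
  have h6 : (6 : K) ≠ 0 := by
    have : (6 : K) = 2 * 3 := by norm_num
    rw [this]; exact mul_ne_zero h2 h3
  let g : CG K := ⟨0, 0, 0, β / 2, -α / 6, 0⟩
  have hconj : ∀ a b : K, el a b * g = g * (el a b * zc (-(α * a) - β * b)) := by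
    intro a b
    have e1 : β / 2 * 2 = β := by field_simp
    have e2 : α / 6 * 6 = α := by field_simp
    ext
    · simp [el, g, zc]
    · simp [el, g, zc]
    · simp [el, g, zc]
    · simp [el, g, zc]
    · simp [el, g, zc]
    · simp [el, g, zc]
      linear_combination (-a) * e2 - b * e1
  let V0 : Submodule ℂ V :=
    { carrier := {u | ∀ a b, ρ (el a b) u = u}
      add_mem' := by
        intro u w hu hw a b
        rw [map_add, hu a b, hw a b]
      zero_mem' := by
        intro a b
        rw [map_zero]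
      smul_mem' := by
        intro c u hu a b
        rw [map_smul, hu a b] }
  have hgv : ρ g v ∈ V0 := by
    intro a b
    rw [← Module.End.mul_apply, ← map_mul, hconj, map_mul, map_mul, Module.End.mul_apply,
      Module.End.mul_apply, hlam_all, map_smul, hel, smul_smul, ← AddChar.map_add_eq_mul]
    have : -(α * a) - β * b + (α * a + β * b) = 0 := by ring
    rw [this, AddChar.map_zero_eq_one, one_smul]
  have hV0 : V0 ≠ ⊥ := by
    intro h
    rw [h, Submodule.mem_bot] at hgv
    exact hv (hρinj _ _ hgv)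
  have : Nontrivial V0 := by
    rw [Submodule.nontrivial_iff_ne_bot]; exact hV0
  -- the translations act on V0
  have htr : ∀ t : K, ∀ u ∈ V0, ρ (tr t) u ∈ V0 := by
    intro t u hu a b
    have e : el a b * tr t = tr t * el (a + b * t) b := by
      ext <;> simp [el, tr]
    rw [← Module.End.mul_apply, ← map_mul, e, map_mul, Module.End.mul_apply, hu]
  let f : K → Module.End ℂ V0 := fun t => (ρ (tr t)).restrict (htr t)
  have hf : ∀ s t, Commute (f s) (f t) := by
    intro s t
    ext u
    simp only [f, Module.End.mul_apply, LinearMap.restrict_apply]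
    rw [← Module.End.mul_apply, ← Module.End.mul_apply, ← map_mul, ← map_mul, ← tr_add, ← tr_add,
      add_comm]
  obtain ⟨u, hu, hu'⟩ := exists_common_eigenvector f hf
  have hu0 : (u : V) ≠ 0 := fun h => hu (Subtype.ext h)
  have := finrank_eq_index ρ hirr (A : Subgroup (CG K)) (T : Subgroup (CG K)) A_normal (u : V) hu0
    (fun x => lam x.z) ?_ ?_ (weight_sep h2 h3 lam hlam)
  · rw [this, index_T]
  · intro x hx
    have e : x = el x.a x.b * zc x.z := by
      rw [mem_A] at hx
      ext <;> simp [el, zc, hx.1, hx.2.1, hx.2.2]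
    have := u.2 x.a x.b
    calc ρ x (u : V) = ρ (el x.a x.b * zc x.z) (u : V) := by rw [← e]
      _ = _ := by rw [map_mul, Module.End.mul_apply, hlam_all, map_smul, this]
  · intro x hx
    obtain ⟨k, hk⟩ := hu' x.t
    have hk' : ρ (tr x.t) (u : V) = k • (u : V) := congrArg Subtype.val hk
    have e : x = tr x.t * el x.a x.b * zc x.z := by
      rw [mem_T] at hx
      ext <;> simp [el, zc, tr, hx.1, hx.2]
    have := u.2 x.a x.b
    refine ⟨lam x.z * k, ?_⟩
    calc ρ x (u : V) = ρ (tr x.t * el x.a x.b * zc x.z) (u : V) := by rw [← e]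
      _ = _ := by
        rw [map_mul, map_mul, Module.End.mul_apply, Module.End.mul_apply, hlam_all, map_smul,
          map_smul, this, hk', smul_smul]

/-- All dimensions of irreducible representations. -/
theorem finrank_mem [Finite K] (h2 : (2 : K) ≠ 0) (h3 : (3 : K) ≠ 0)
    (ρ : Representation ℂ (CG K) V)
    (hirr : ∀ W : Submodule ℂ V, (∀ g : CG K, ∀ v ∈ W, ρ g v ∈ W) → W = ⊥ ∨ W = ⊤) :
    finrank ℂ V = 1 ∨ finrank ℂ V = Nat.card K ∨ finrank ℂ V = Nat.card K ^ 2 := by
  by_cases hz : ∀ s, ρ (zc s) = 1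
  · rcases finrank_of_trivial h2 h3 ρ hirr hz with h | h
    · exact Or.inl h
    · exact Or.inr (Or.inl h)
  · exact Or.inr (Or.inr (finrank_of_nontrivial h2 h3 ρ hirr hz))

/-- The set of dimensions of the irreducible representations. -/
def degs (G : Type) [Group G] : Set ℕ :=
  {n : ℕ | ∃ (V : Type) (_ : AddCommGroup V) (_ : Module ℂ V)
              (_ : FiniteDimensional ℂ V) (ρ : Representation ℂ G V),
              Nontrivial V ∧
              (∀ W : Submodule ℂ V, (∀ g : G, ∀ v ∈ W, ρ g v ∈ W) → W = ⊥ ∨ W = ⊤) ∧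
              Module.finrank ℂ V = n}

theorem one_mem_degs [Finite K] : 1 ∈ degs (CG K) := by
  obtain ⟨V, i1, i2, i3, ρ, hnt, hirr, v, hv, hT⟩ :=
    exists_irreducible (G := CG K) ⊤ (fun _ => 1) rfl (fun _ _ _ _ => by simp)
  refine ⟨V, i1, i2, i3, ρ, hnt, hirr, ?_⟩
  have := finrank_eq_index ρ hirr (⊥ : Subgroup (CG K)) (⊤ : Subgroup (CG K)) inferInstance v hv
      (fun _ => 1) (fun a _ => hT a (Subgroup.mem_top a)) (fun t ht => ⟨_, hT t ht⟩)
      (fun g hg => absurd (Subgroup.mem_top g) hg)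
  rw [this, Subgroup.index_top]

theorem card_mem_degs [Finite K] : Nat.card K ∈ degs (CG K) := by
  obtain ⟨lam, hlam⟩ := exists_addChar_ne_one (K := K)
  obtain ⟨s, hs⟩ := AddChar.ne_one_iff.1 hlam
  obtain ⟨V, i1, i2, i3, ρ, hnt, hirr, v, hv, hT⟩ :=
    exists_irreducible (G := CG K) (N : Subgroup (CG K)) (fun x => lam x.a)
      (by simp) (fun x hx y hy => by
        rw [mem_N] at hx hy
        simp only [mul_a, hy]
        rw [← AddChar.map_add_eq_mul]
        congr 1
        ring)
  refine ⟨V, i1, i2, i3, ρ, hnt, hirr, ?_⟩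
  have := finrank_eq_index ρ hirr (N : Subgroup (CG K)) (N : Subgroup (CG K)) N_normal v hv
      (fun x => lam x.a) hT (fun t ht => ⟨_, hT t ht⟩) ?_
  · rw [this, index_N]
  · intro g hg
    rw [mem_N] at hg
    refine ⟨⟨0, 0, s / g.t, 0, 0, 0⟩, rfl, ?_⟩
    have e : (g⁻¹ * (⟨0, 0, s / g.t, 0, 0, 0⟩ : CG K) * g).a = s := by
      simp
      field_simp
      ring
    simp only [e]
    rw [AddChar.map_zero_eq_one]
    exact hs

theorem card_sq_mem_degs [Finite K] (h2 : (2 : K) ≠ 0) (h3 : (3 : K) ≠ 0) :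
    Nat.card K ^ 2 ∈ degs (CG K) := by
  obtain ⟨lam, hlam⟩ := exists_addChar_ne_one (K := K)
  obtain ⟨V, i1, i2, i3, ρ, hnt, hirr, v, hv, hT⟩ :=
    exists_irreducible (G := CG K) (T : Subgroup (CG K)) (fun x => lam x.z)
      (by simp) (fun x hx y hy => by
        rw [mem_T] at hx hy
        simp only [mul_z, hx.1, hx.2, hy.1, hy.2]
        rw [← AddChar.map_add_eq_mul]
        congr 1
        ring)
  refine ⟨V, i1, i2, i3, ρ, hnt, hirr, ?_⟩
  have hAT : ∀ x ∈ (A : Subgroup (CG K)), x ∈ (T : Subgroup (CG K)) := by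
    intro x hx
    rw [mem_A] at hx
    exact ⟨hx.2.1, hx.2.2⟩
  have := finrank_eq_index ρ hirr (A : Subgroup (CG K)) (T : Subgroup (CG K)) A_normal v hv
      (fun x => lam x.z) (fun x hx => hT x (hAT x hx)) (fun t ht => ⟨_, hT t ht⟩)
      (weight_sep h2 h3 lam hlam)
  rw [this, index_T]

theorem degs_eq [Finite K] (h2 : (2 : K) ≠ 0) (h3 : (3 : K) ≠ 0) :
    degs (CG K) = {1, Nat.card K, Nat.card K ^ 2} := by
  ext n
  constructor
  · rintro ⟨V, i1, i2, i3, ρ, hnt, hirr, rfl⟩
    exact finrank_mem h2 h3 ρ hirr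
  · rintro (rfl | rfl | rfl)
    · exact one_mem_degs
    · exact card_mem_degs
    · exact card_sq_mem_degs h2 h3

/-- The second derived subgroup is nontrivial. -/
theorem derived_ne_bot (h2 : (2 : K) ≠ 0) (h3 : (3 : K) ≠ 0) :
    derivedSeries (CG K) 2 ≠ ⊥ := by
  intro h
  let u : CG K := ⟨1, 0, 0, 0, 0, 0⟩
  let x3 : CG K := ⟨0, 0, 0, 0, 1, 0⟩
  let x2 : CG K := ⟨0, 0, 0, 1, 0, 0⟩
  have e0 : ∀ a b : CG K, ⁅a, b⁆ ∈ derivedSeries (CG K) 1 := by
    intro a b
    rw [derivedSeries_succ]
    exact Subgroup.commutator_mem_commutator (by simp) (by simp)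
  have e1 : ⁅⁅u, x3⁆, ⁅u, x2⁆⁆ ∈ derivedSeries (CG K) 2 := by
    rw [derivedSeries_succ]
    exact Subgroup.commutator_mem_commutator (e0 _ _) (e0 _ _)
  rw [h, Subgroup.mem_bot] at e1
  have e2 := congrArg CG.z e1
  simp only [commutatorElement_def, u, x3, x2] at e2
  simp at e2
  ring_nf at e2
  have h12 : (12 : K) ≠ 0 := by
    have : (12 : K) = 2 * 2 * 3 := by norm_num
    rw [this]; exact mul_ne_zero (mul_ne_zero h2 h2) h3
  exact h12 e2

end Pool.Agent.Helper493.CubicGroup
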